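import Pool.Agent.NTW.StmtsB

/-!
# Row HB3 of the squad NTW: the pair case is impossible
-/

set_option autoImplicit false

open Matrix Filter Topology

namespace Pool.Agent.NTW.H58

open Pool.Agent.PFS Pool.Agent.PFJ Pool.Agent.NTS Pool.Agent.NTW

theorem hb3 (nng : NngStmt) (fcs : FcsStmt) (pbf : PbfStmt) (dcp : DcpStmt) (eiw : EiwStmt)
    (lm1 : Lm1Stmt) (hfb : HfbStmt) (hot : HotStmt) (hb1 : Hb1Stmt) (hb2 : Hb2Stmt) : Hb3Stmt := by
  classical
  intro n C Γ K c τ hD v v' ν M k hK
  by_contra hk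
  have h : CC C Γ := hD.toCC
  have hC : PCone C := h.toPCone
  have hul := h.hul
  have tv := hK.tv
  have tv' := hK.tv'
  have hvc : ∀ i, v i ∈ closure C := fun i => tv.pes.1.cl i
  have hvc' : ∀ i, v' i ∈ closure C := fun i => tv'.pes.1.cl i
  have hxtC : ∀ t, xt v t ∈ C := fun t => tv.pes.1.pos _ fun i => Real.exp_pos _
  have htau : Tau c τ := hD.toTau
  -- sums over the involution
  have hsum2 : ∀ x : Fin K → V n, ∑ l, (x l + x (τ l)) = (2 : ℝ) • ∑ l, x l := by
    intro x
    have h1 : ∑ l, x (τ l) = ∑ l, x l :=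
      Equiv.sum_comp (Function.Involutive.toPerm τ htau.inv) x
    rw [Finset.sum_add_distrib, h1, two_smul]
  -- the point `t0`
  set t0 : Fin K → ℝ := fun i => if i = k then -1 else 0 with ht0
  have hνt0 : 0 < ∑ i, ν i * t0 i := by
    have h1 : ∑ i, ν i * t0 i = - ν k := by
      simp only [ht0, mul_ite, mul_neg, mul_one, mul_zero, Finset.sum_ite_eq', Finset.mem_univ,
        if_true]
    rw [h1]
    linarith [hK.neg]
  obtain ⟨x0, hN0, hL0⟩ := hK.near t0 hνt0
  have hM : 1 ≤ M := by
    by_contra hlt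
    push Not at hlt
    have h1 : (M - 1) • xt v t0 ∈ closure C := by
      have h2 := hC.cl_add hN0.up hN0.lo
      have h3 : M • xt v t0 - ∑ i, x0 i + (∑ i, x0 i - xt v t0) = (M - 1) • xt v t0 := by module
      rwa [h3] at h2
    have h2 : (1 - M) • xt v t0 ∈ C := hC.smul _ (hxtC t0) _ (by linarith)
    have h3 := hC.salient _ (subset_closure h2) (by
      have h4 : -((1 - M) • xt v t0) = (M - 1) • xt v t0 := by module
      rw [h4]
      exact h1)
    rw [h3] at h2
    exact hC.zero h2
  have hM0 : 0 < M := by linarith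
  obtain ⟨i0, hH⟩ := hfb n C Γ K c τ hD v v' ν M k hK hk
  obtain ⟨j, hjk, hjr, hνj⟩ := hb1 n C Γ K c τ hD v v' ν M k hK hk
  obtain ⟨e, heL, hec, heB⟩ := hb2 n C Γ K c τ hD v v' ν M k i0 j hK hH hM hjk hjr hνj
  obtain ⟨R, hR, hot'⟩ := hot n C Γ K c τ hD v v' ν M k i0 hK hH hM
  obtain ⟨-, dLt, dU, d4, -, -, -⟩ := dcp n C Γ K c τ hD v' tv'
  -- (a)
  have he0 : e ≠ 0 := by
    intro he
    have h1 := (heB t0 x0 hνt0 hN0).2
    rw [he, smul_zero, zero_add] at h1
    have hr0 : t0 (τ k) = 0 := by simp only [ht0]; rw [if_neg hk]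
    rw [hr0, Real.exp_zero, one_smul] at h1
    set Z : V n := ∑ m ∈ Finset.univ.erase k, v m with hZ
    set A : ℝ := M + R with hA
    have hZr : Z - v (τ k) ∈ closure C := by
      rw [hZ, ← Finset.add_sum_erase (Finset.univ.erase k) _
        (Finset.mem_erase.2 ⟨hk, Finset.mem_univ (τ k)⟩), add_sub_cancel_left]
      exact hC.cl_sum fun i _ => hvc i
    have hZc : Z ∈ closure C := hC.cl_sum fun i _ => hvc i
    have hrest : ∑ m ∈ (Finset.univ.erase k).erase (τ k), Real.exp (t0 m) • v m =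
        ∑ m ∈ (Finset.univ.erase k).erase (τ k), v m := by
      refine Finset.sum_congr rfl fun m hm => ?_
      have hmk : m ≠ k := (Finset.mem_erase.1 (Finset.mem_erase.1 hm).2).1
      have : t0 m = 0 := by simp only [ht0]; rw [if_neg hmk]
      rw [this, Real.exp_zero, one_smul]
    have hZrest : Z - ∑ m ∈ (Finset.univ.erase k).erase (τ k), v m ∈ closure C := by
      rw [hZ, ← Finset.add_sum_erase (Finset.univ.erase k) _
        (Finset.mem_erase.2 ⟨hk, Finset.mem_univ (τ k)⟩), add_sub_cancel_right]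
      exact hvc _
    have hcomp : ∀ l, A • Z - (x0 l + x0 (τ l)) ∈ closure C := by
      have hf : A • Z - (x0 i0 + x0 (τ i0)) ∈ closure C := by
        have h2 : (M • v (τ k) - (x0 i0 + x0 (τ i0))) + (M • (Z - v (τ k)) + R • Z) ∈ closure C :=
          hC.cl_add h1 (hC.cl_add (hC.cl_smul hZr hM0.le) (hC.cl_smul hZc hR.le))
        have h3 : (M • v (τ k) - (x0 i0 + x0 (τ i0))) + (M • (Z - v (τ k)) + R • Z) =
            A • Z - (x0 i0 + x0 (τ i0)) := by rw [hA]; module
        rwa [h3] at h2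
      intro l
      by_cases hl1 : l = i0
      · rw [hl1]; exact hf
      by_cases hl2 : l = τ i0
      · rw [hl2, htau.inv, add_comm (x0 (τ i0))]; exact hf
      have h2 := hot' t0 x0 hN0 hL0 l hl1 hl2
      rw [hrest] at h2
      have h3 := hC.cl_add h2 (hC.cl_add (hC.cl_smul hZrest hR.le) (hC.cl_smul hZc hM0.le))
      have h4 : R • ∑ m ∈ (Finset.univ.erase k).erase (τ k), v m - (x0 l + x0 (τ l)) +
          (R • (Z - ∑ m ∈ (Finset.univ.erase k).erase (τ k), v m) + M • Z) =
          A • Z - (x0 l + x0 (τ l)) := by rw [hA]; module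
      rwa [h4] at h3
    have h2 : ((K : ℝ) * A) • Z - (2 : ℝ) • ∑ l, x0 l ∈ closure C := by
      have h3 : ∑ l, (A • Z - (x0 l + x0 (τ l))) ∈ closure C := hC.cl_sum fun l _ => hcomp l
      rw [Finset.sum_sub_distrib, hsum2, Finset.sum_const, Finset.card_univ, Fintype.card_fin,
        ← Nat.cast_smul_eq_nsmul ℝ, smul_smul] at h3
      exact h3
    have h3 : ((K : ℝ) * A) • Z - (2 * Real.exp (-1)) • v k ∈ closure C := by
      have hk1 : xt v t0 - Real.exp (-1) • v k ∈ closure C := by
        have e1 : t0 k = -1 := by simp [ht0]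
        unfold xt
        rw [← Finset.add_sum_erase Finset.univ _ (Finset.mem_univ k), e1, add_sub_cancel_left]
        exact hC.cl_sum fun i _ => hC.cl_smul (hvc i) (Real.exp_pos _).le
      have h4 := hC.cl_add h2 (hC.cl_smul (hC.cl_add hN0.lo hk1) (by norm_num : (0 : ℝ) ≤ 2))
      have h5 : ((K : ℝ) * A) • Z - (2 : ℝ) • ∑ l, x0 l +
          (2 : ℝ) • (∑ i, x0 i - xt v t0 + (xt v t0 - Real.exp (-1) • v k)) =
          ((K : ℝ) * A) • Z - (2 * Real.exp (-1)) • v k := by module
      rwa [h5] at h4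
    have h4 := nng n C hC (Fin K) v tv.pes.1
      (fun i => if i = k then -(2 * Real.exp (-1)) else (K : ℝ) * A) (by
        rw [← Finset.add_sum_erase Finset.univ _ (Finset.mem_univ k), if_pos rfl]
        have h5 : ∑ i ∈ Finset.univ.erase k,
            (if i = k then -(2 * Real.exp (-1)) else (K : ℝ) * A) • v i = ((K : ℝ) * A) • Z := by
          rw [hZ, Finset.smul_sum]
          refine Finset.sum_congr rfl fun i hi => ?_
          rw [if_neg (Finset.ne_of_mem_erase hi)]
        rw [h5]
        have h6 : -(2 * Real.exp (-1)) • v k + ((K : ℝ) * A) • Z =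
            ((K : ℝ) * A) • Z - (2 * Real.exp (-1)) • v k := by module
        rw [h6]
        exact h3) k
    rw [if_pos rfl] at h4
    have := Real.exp_pos (-1)
    linarith
  -- (b)
  have heLam : e ∈ LamC C Γ := by
    set g : V n := v' i0 + v' (τ i0) with hg
    obtain ⟨M', hM', hle⟩ := (dU i0).2.2 e heL
    have hgH : g ∈ Hull C Γ := hul.add _ (hul.lamHull _ (tv'.pes.2 _)) _ (hul.lamHull _ (tv'.pes.2 _))
    have hgC : g ∉ C := by
      have h1 := tv'.pes.1.bd (fun i => if i = i0 ∨ i = τ i0 then 1 else 0)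
        (fun i => by split_ifs <;> norm_num) (by
          have h2 : ({i0, τ i0} : Finset (Fin K)).card < Fintype.card (Fin K) := by
            rw [Fintype.card_fin]
            have := Finset.card_le_two (a := i0) (b := τ i0)
            have := hD.three
            omega
          obtain ⟨i, hi⟩ : ∃ i, i ∉ ({i0, τ i0} : Finset (Fin K)) := by
            by_contra hh
            push Not at hh
            have := Finset.eq_univ_iff_forall.2 hh
            rw [this, Finset.card_univ] at h2
            exact lt_irrefl _ h2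
          refine ⟨i, ?_⟩
          rw [if_neg]
          simpa using hi)
      have h2 : ∑ i, (if i = i0 ∨ i = τ i0 then (1 : ℝ) else 0) • v' i = g := by
        have h3 : ∀ i, (if i = i0 ∨ i = τ i0 then (1 : ℝ) else 0) • v' i =
            (if i = i0 then v' i else 0) + (if i = τ i0 then v' i else 0) := by
          intro i
          by_cases h4 : i = i0
          · have h5 : i ≠ τ i0 := by rw [h4]; exact hH.pr.symm
            rw [if_pos (Or.inl h4), if_pos h4, if_neg h5, one_smul, add_zero]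
          · by_cases h5 : i = τ i0
            · rw [if_pos (Or.inr h5), if_neg h4, if_pos h5, one_smul, zero_add]
            · rw [if_neg (not_or.2 ⟨h4, h5⟩), if_neg h4, if_neg h5, zero_smul, add_zero]
        rw [Finset.sum_congr rfl fun i _ => h3 i, Finset.sum_add_distrib, Finset.sum_ite_eq',
          Finset.sum_ite_eq', if_pos (Finset.mem_univ _), if_pos (Finset.mem_univ _)]
      rwa [h2] at h1
    have hg0 : g ≠ 0 := by
      intro h0
      have h1 := hC.salient (v' i0) (hvc' i0) (by
        have h2 : -v' i0 = v' (τ i0) := by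
          rw [neg_eq_iff_add_eq_zero]
          exact h0
        rw [h2]
        exact hvc' _)
      exact hul.lamNe _ (tv'.pes.2 i0) h1
    have hgL : g ∈ LamC C Γ :=
      H37.cloF n C Γ h (fun _ => g) g (fun _ => hgH) tendsto_const_nhds hgC hg0
    exact H37.flmF n C Γ h (M' • g) (hul.lamSmul _ hgL _ hM') e hec he0 hle
  have hLW : ∀ i, Lf C τ v' i ≤ Ws C τ v' := fun i => le_iSup (Lf C τ v') i
  -- (c)
  have hnm : ¬ ∃ r : ℝ, e = r • v k := by
    rintro ⟨r, hr⟩
    have hr0 : r ≠ 0 := by
      rintro rfl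
      rw [zero_smul] at hr
      exact he0 hr
    apply hK.out
    have h1 : v k = r⁻¹ • e := by rw [hr, smul_smul, inv_mul_cancel₀ hr0, one_smul]
    rw [h1]
    exact Submodule.smul_mem _ _ (hLW i0 heL)
  -- (d)
  have hbel : BelowH C v e k ν := by
    refine ⟨2 * M ^ 2, by positivity, fun u hu => ?_⟩
    set t : Fin K → ℝ := fun i => Real.log 2 * (u i : ℝ) with ht
    have hexp : ∀ i, Real.exp (t i) = (2 : ℝ) ^ (u i) := by
      intro i
      rw [ht]
      simp only
      rw [← Real.rpow_def_of_pos (by norm_num : (0 : ℝ) < 2), Real.rpow_intCast]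
    have hxt : xt v t = pt v u := by
      unfold xt pt
      exact Finset.sum_congr rfl fun i _ => by rw [hexp]
    have hpos : 0 < ∑ i, ν i * t i := by
      have h1 : ∑ i, ν i * t i = Real.log 2 * ∑ i, ν i * (u i : ℝ) := by
        rw [Finset.mul_sum]
        exact Finset.sum_congr rfl fun i _ => by rw [ht]; ring
      rw [h1]
      exact mul_pos (Real.log_pos (by norm_num)) hu
    obtain ⟨x, hN, -⟩ := hK.near t hpos
    have h1 := (heB t x hpos hN).1
    rw [hexp] at h1
    have hxc : ∑ i, x i ∈ closure C := by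
      have h2 := hC.cl_add hN.lo (subset_closure (hxtC t))
      rwa [sub_add_cancel] at h2
    have h4 := d4 x hN.mem hxc
    have h2 : (2 : ℝ) • ∑ i, x i - (x i0 + x (τ i0)) ∈ closure C := by
      rw [← hsum2, ← Finset.add_sum_erase Finset.univ _ (Finset.mem_univ i0), add_sub_cancel_left]
      exact hC.cl_sum fun i _ => h4 i
    have h3 := hN.up
    rw [hxt] at h3
    have h5 := hC.cl_add (hC.cl_add h1 (hC.cl_smul h2 hM0.le))
      (hC.cl_smul h3 (by positivity : (0 : ℝ) ≤ 2 * M))
    have h6 : M • (x i0 + x (τ i0)) - (2 : ℝ) ^ (u k) • e +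
        M • ((2 : ℝ) • ∑ i, x i - (x i0 + x (τ i0))) + (2 * M) • (M • pt v u - ∑ i, x i) =
        (2 * M ^ 2) • pt v u - (2 : ℝ) ^ (u k) • e := by module
    rwa [h6] at h5
  -- (e)
  obtain ⟨j', hj'k, -, -, hz, M', -, hle⟩ := lm1 n C Γ h K hD.three hD.maxc v e k ν tv.pes heLam hnm
    hbel hK.pos hK.nz hK.sum
  have hjj : j' = j := by
    by_contra hne
    have := hz j (fun h' => hne h'.symm) hjk
    linarith
  subst hjj
  have hc2 : c j' k = 2 := by
    have h1 := htau.leaf k hk j' hjk hjr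
    have h2 := hD.two k j' (Ne.symm hjk)
    rw [hD.sym]
    omega
  have hdim := hD.dim v tv j' k hjk
  rw [hc2] at hdim
  obtain ⟨p1, p2, p3⟩ := pbf n C hC K v tv.pes.1 j' k hjk
  have hFs : Submodule.span ℝ ({v j', v k} : Set (V n)) = Fs C (v j') (v k) :=
    Submodule.eq_of_le_of_finrank_eq (p1 _ p2).2.1 (by rw [p3, hdim])
  have heF : e ∈ Fs C (v j') (v k) :=
    (fcs n C hC (v j' + v k) (hC.cl_add (hvc _) (hvc _))).2.1 e hec M' hle
  rw [← hFs, Submodule.mem_span_pair] at heF
  obtain ⟨α, β, hαβ⟩ := heF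
  obtain ⟨j1, hj1, hj1', hvj⟩ := hH.oth j' hjk hjr
  have hβ : β = 0 := by
    by_contra hβ
    apply hK.out
    have h1 : v k = β⁻¹ • (e - α • v j') := by
      rw [← hαβ, add_sub_cancel_left, smul_smul, inv_mul_cancel₀ hβ, one_smul]
    rw [h1]
    exact Submodule.smul_mem _ _ (Submodule.sub_mem _ (hLW i0 heL)
      (Submodule.smul_mem _ _ (hLW j1 hvj)))
  rw [hβ, zero_smul, add_zero] at hαβ
  have he1 : e ∈ Lf C τ v' j1 := by
    rw [← hαβ]
    exact Submodule.smul_mem _ _ hvj
  rcases (eiw n C Γ K c τ hD v' tv').2.1 i0 j1 e heL he1 he0 with h1 | h1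
  · exact hj1 h1
  · exact hj1' h1

end Pool.Agent.NTW.H58
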