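import Pool.Agent.NTW.StmtsA

/-!
# Row TAU of the squad NTW: the involution of the isolated edges
-/

set_option autoImplicit false

namespace Pool.Agent.NTW.H58

open Pool.Agent.NTW

/-- isolated nontrivial edges -/
def Iso {K : ℕ} (c : Fin K → Fin K → ℕ) (i j : Fin K) : Prop :=
  i ≠ j ∧ 3 ≤ c i j ∧ ∀ l, l ≠ i → l ≠ j → c i l ≤ 2 ∧ c j l ≤ 2

theorem iso_symm {K : ℕ} {c : Fin K → Fin K → ℕ} (hc : ∀ i j, c i j = c j i) {i j : Fin K}
    (h : Iso c i j) : Iso c j i :=
  ⟨h.1.symm, by rw [hc]; exact h.2.1, fun l h1 h2 => (h.2.2 l h2 h1).symm⟩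

theorem iso_unique {K : ℕ} {c : Fin K → Fin K → ℕ} {i j j' : Fin K}
    (h : Iso c i j) (h' : Iso c i j') : j' = j := by
  by_contra hne
  have h1 := (h.2.2 j' h'.1.symm hne).1
  have h2 := h'.2.1
  omega

theorem tau : TauStmt := by
  intro K c hc
  classical
  set τ : Fin K → Fin K := fun i => if h : ∃ j, Iso c i j then h.choose else i with hτ
  have h1 : ∀ i j, Iso c i j → τ i = j := by
    intro i j hij
    have h : ∃ j, Iso c i j := ⟨j, hij⟩
    have e : τ i = h.choose := by simp only [hτ]; rw [dif_pos h]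
    rw [e]
    exact iso_unique hij h.choose_spec
  have h2 : ∀ i, τ i ≠ i → Iso c i (τ i) := by
    intro i hi
    by_cases h : ∃ j, Iso c i j
    · have e : τ i = h.choose := by simp only [hτ]; rw [dif_pos h]
      rw [e]
      exact h.choose_spec
    · exact absurd (by simp only [hτ]; rw [dif_neg h]) hi
  refine ⟨τ, ⟨fun i => ?_, fun i hi => (h2 i hi).2.1, fun i hi l h3 h4 => ((h2 i hi).2.2 l h3 h4).1,
    fun i j hij hi h3 => ?_⟩⟩
  · by_cases hi : τ i = i
    · rw [hi, hi]
    · exact h1 _ _ (iso_symm hc (h2 i hi))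
  · by_contra h
    push Not at h
    have h4 : Iso c i j := ⟨hij, h3, fun l hl1 hl2 => by
      have := h l hl1 hl2
      omega⟩
    have := h1 i j h4
    exact hij (hi.symm.trans this)

end Pool.Agent.NTW.H58
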